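import Pool.Agent.H46.BT.Fin2
import Pool.Agent.H211.HY.Bridge

/-!
# Collet-Eckmann rational maps are limits of maps with strictly preperiodic critical points

Let `f = P / Q` be a rational map of degree `d ≥ 2` all of whose critical points satisfy the
Collet-Eckmann condition: the spherical derivatives of the iterates at the critical values grow
exponentially. (Then the Julia set is the whole sphere, so these maps are in the class of question
Q1.) The critical points may have any multiplicities and may be recurrent, to themselves and to each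
other, at any speed. Then `f` is a limit of rational maps of degree `d` all of whose critical points
are strictly preperiodic: the conclusion of the question Q1 (in the form of the frozen statement)
is true for `f`. There is no exception: for flexible Lattès maps `f` itself has this property.

In the proof the critical points of the approximating maps are all mapped by iterates to one
repelling cycle, which contains no critical points: by project BT (helper207) the parameters can be
chosen such that the orbits of the critical values of the perturbed map follow the orbits of `f` for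
a long time and arrive at prescribed moving targets; the close passages of the orbits near the
critical points are dealt with by a recursion over the scales (`Pool/Agent/H207/BT/Stm.lean`,
`Stm2.lean`, `Stm5.lean`).

The rational map is described in homogeneous coordinates of the sphere: the point with the
homogeneous coordinates `p = (u, v) ≠ 0` is `u / v`, and `f` is induced by the map
`F (u, v) = (v ^ d * P (u / v), v ^ d * Q (u / v))` of `ℂ²`.

Credits: project BT and its plan, statements and first assembly by helper207 (with project HY of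
helper211); the pieces by helpers 30, 65, 69, 87, 100, 111, 137, 215, 221, 250, 263, 286, 295, 345,
356, 383, 390, 401, 404, 549, 551, 593, 685, 722, 726, 729, 733, 734, 738, 746, 747, 766, 803, 860,
921, 972, 980 and others; assembly of this part by helpers 46, 483, 729.
-/

set_option autoImplicit false

open Filter Topology Polynomial

namespace Pool.Agent.Results.MP_b130d3_an.ColletEckmannPreperiodic

/-- The homogeneous map `F` of `ℂ²` which induces the rational map `P / Q` of degree `d`. -/
noncomputable def lift (d : ℕ) (P Q : ℂ[X]) (p : ℂ × ℂ) : ℂ × ℂ :=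
  (∑ j ∈ Finset.range (d + 1), P.coeff j * p.1 ^ j * p.2 ^ (d - j),
   ∑ j ∈ Finset.range (d + 1), Q.coeff j * p.1 ^ j * p.2 ^ (d - j))

/-- The Jacobian determinant of `F`. The critical points of the rational map are the points whose
homogeneous coordinates are its zeros. -/
noncomputable def jac (d : ℕ) (P Q : ℂ[X]) (p : ℂ × ℂ) : ℂ := (fderiv ℂ (lift d P Q) p).det

/-- The square of the Euclidean norm of `ℂ²`. -/
noncomputable def normSq (p : ℂ × ℂ) : ℝ := ‖p.1‖ ^ 2 + ‖p.2‖ ^ 2

/-- The derivative of the rational map with respect to the spherical metric, at the point with the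
homogeneous coordinates `p ≠ 0`. -/
noncomputable def sphericalDeriv (d : ℕ) (P Q : ℂ[X]) (p : ℂ × ℂ) : ℝ :=
  ‖jac d P Q p‖ * normSq p / ((d : ℝ) * normSq (lift d P Q p))

/-- The Collet-Eckmann condition for the critical point `c`: the spherical derivatives of the
iterates at the critical value grow exponentially. -/
def ColletEckmann (d : ℕ) (P Q : ℂ[X]) (c : ℂ × ℂ) : Prop :=
  ∃ C > (0 : ℝ), ∃ μ > (1 : ℝ), ∀ n : ℕ,
    C * μ ^ n ≤ ∏ j ∈ Finset.range n, sphericalDeriv d P Q ((lift d P Q)^[j + 1] c)

/-- **Collet-Eckmann rational maps are limits of rational maps with strictly preperiodic critical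
points.** Let `P / Q` be a rational map of degree `d ≥ 2` all of whose critical points satisfy the
Collet-Eckmann condition. Then for every `ε > 0` the conclusion of the frozen statement holds: there
is a rational map `h = P' / Q'` of degree `d` whose coefficients are at distance less than `ε` from
those of `P`, `Q`, such that every critical point of `h` is preperiodic and not periodic. -/
theorem result (d : ℕ) (hd : 2 ≤ d) (P Q : ℂ[X]) (hPQ : IsCoprime P Q)
    (hdeg : max P.natDegree Q.natDegree = d)
    (hcrit : ∀ c : ℂ × ℂ, c ≠ 0 → jac d P Q c = 0 → ColletEckmann d P Q c) :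
    ∀ ε : ℝ, 0 < ε → ∃ (h : OnePoint ℂ → OnePoint ℂ) (P' Q' : ℂ[X]),
      IsCoprime P' Q' ∧ max P'.natDegree Q'.natDegree = d ∧ Continuous h ∧
      (∀ z : ℂ, Q'.eval z ≠ 0 → h (OnePoint.some z) = OnePoint.some (P'.eval z / Q'.eval z)) ∧
      (∀ z : ℂ, Q'.eval z = 0 → h (OnePoint.some z) = OnePoint.infty) ∧
      (∀ i : ℕ, ‖P'.coeff i - P.coeff i‖ < ε) ∧ (∀ i : ℕ, ‖Q'.coeff i - Q.coeff i‖ < ε) ∧
      ∀ c : OnePoint ℂ, (¬ ∃ U ∈ nhds c, Set.InjOn h U) →
        (∃ m n : ℕ, 0 < n ∧ h^[m + n] c = h^[m] c) ∧ ∀ n : ℕ, 0 < n → h^[n] c ≠ c := by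
  intro ε hε
  have hPQ' := Pool.Agent.H790R3.RB.PQ Pool.Agent.H790R3.RB.SP d (by omega)
  obtain ⟨x, hx, hP, hQ, -⟩ := hPQ'.2 P Q hPQ hdeg
  obtain ⟨-, -, hcx, hbx, -⟩ := hPQ'.1 x hx
  have hlift : lift d P Q = Pool.Agent.H790R3.RB.hF x := by
    rw [← hP, ← hQ]
    exact Pool.Agent.H211.HY.lft_eq x hcx
  have hjac : ∀ p, jac d P Q p = Pool.Agent.H790R3.RB.wr x p := fun p => by
    unfold jac
    rw [hlift]
    exact Pool.Agent.H211.HY.jac_eq hd x p
  have hsd : ∀ p, sphericalDeriv d P Q p = Pool.Agent.H211.HY.sd x p := fun p => by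
    unfold sphericalDeriv Pool.Agent.H211.HY.sd
    rw [hjac, hlift]
    rfl
  have hce : Pool.Agent.H211.HY.CE x := by
    intro c hc hw
    obtain ⟨C, hC, μ, hμ, h⟩ := hcrit c hc (by rw [hjac]; exact hw)
    refine ⟨C, hC, μ, hμ, fun n => (h n).trans_eq ?_⟩
    unfold Pool.Agent.H211.HY.sdn
    refine Finset.prod_congr rfl fun j _ => ?_
    rw [hsd, hlift, Function.iterate_succ_apply]
  obtain ⟨z, hz1, hz2, hz3⟩ := Pool.Agent.H46.BT.main_pre hd hx hce hε
  obtain ⟨h1, h2, h3, h4, h5⟩ := hPQ'.1 z hz2
  have hclose : ∀ (i : Fin 2) (j : ℕ), ‖(Pool.Agent.H790R3.RB.pol z i).coeff j -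
      (Pool.Agent.H790R3.RB.pol x i).coeff j‖ < ε := by
    intro i j
    by_cases hj : j < d + 1
    · have e1 := h3 i ⟨j, hj⟩
      have e2 := hcx i ⟨j, hj⟩
      simp only at e1 e2
      rw [e1, e2]
      exact (norm_le_pi_norm (z - x) (i, ⟨j, hj⟩)).trans_lt hz1
    · rw [h4 i j (by omega), hbx i j (by omega), sub_zero, norm_zero]
      exact hε
  refine ⟨Pool.Agent.H790R3.RB.sp z, Pool.Agent.H790R3.RB.pol z 0, Pool.Agent.H790R3.RB.pol z 1,
    h1, h2, (Pool.Agent.H790R3.RB.SP d z (by omega) hz2).1, h5,
    fun w hw => Pool.Agent.H46.BT.sp_pole z hw, fun i => ?_, fun i => ?_,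
    fun c hc => Pool.Agent.H46.BT.sp_spre hd hz2 hz3 c hc⟩
  · rw [← hP]
    exact hclose 0 i
  · rw [← hQ]
    exact hclose 1 i

end Pool.Agent.Results.MP_b130d3_an.ColletEckmannPreperiodic
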